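import Pool.Agent.R713.SplitBasis
import Pool.Agent.R713.Uq

/-!
# MP_dc3d2a_al: equitable `U_q(sl₂)`-action on a `q`-Racah Leonard pair
-/

set_option autoImplicit false

namespace Pool.Agent.Results.MP_dc3d2a_al.EquitableAction

open Pool.Agent.R713 Module

section

variable {K : Type*} [Field K]

/-- `λ_i(x) = x q^(2i-d) + x⁻¹ q^(d-2i)` -/
def lam (q : K) (d : ℕ) (x : K) (i : ℕ) : K :=
  x * q ^ ((2 : ℤ) * i - d) + x⁻¹ * q ^ ((d : ℤ) - 2 * i)

/-- `u_i = (q^(-i) - q^i) (q^(d-i+1) - q^(i-d-1))` -/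
def uu (q : K) (d i : ℕ) : K :=
  (q ^ (-(i : ℤ)) - q ^ (i : ℤ)) * (q ^ ((d : ℤ) - i + 1) - q ^ ((i : ℤ) - d - 1))

/-- `r_i(x) = q^(-i) - x q^(i-d-1)` -/
def rr (q : K) (d : ℕ) (x : K) (i : ℕ) : K := q ^ (-(i : ℤ)) - x * q ^ ((i : ℤ) - d - 1)

/-- the first split sequence -/
def phi (q : K) (d : ℕ) (a b c : K) (i : ℕ) : K :=
  q ^ ((d : ℤ) + 1) / (a * b) * uu q d i * rr q d (a * b * c) i * rr q d (a * b / c) i

/-- the second split sequence -/
def psi (q : K) (d : ℕ) (a b c : K) (i : ℕ) : K :=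
  a * q ^ ((d : ℤ) + 1) / b * uu q d i * rr q d (b * c / a) i * rr q d (b / (a * c)) i

/-- `s_x = x + x⁻¹` -/
def ss (x : K) : K := x + x⁻¹

/-- `t = q^(d+1) + q^(-d-1)` -/
def tt (q : K) (d : ℕ) : K := q ^ ((d : ℤ) + 1) + q ^ (-(d : ℤ) - 1)

variable {V : Type*} [AddCommGroup V] [Module K V]

/-- the equitable relations, with `Xi = X⁻¹` -/
structure EquitableRel (q : K) (X Xi Y Z : Module.End K V) : Prop where
  inv : X * Xi = 1
  inv' : Xi * X = 1
  xy : q • (X * Y) - q⁻¹ • (Y * X) = (q - q⁻¹) • (1 : Module.End K V)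
  yz : q • (Y * Z) - q⁻¹ • (Z * Y) = (q - q⁻¹) • (1 : Module.End K V)
  zx : q • (Z * X) - q⁻¹ • (X * Z) = (q - q⁻¹) • (1 : Module.End K V)

/-- `[P, R] = P R - R P` -/
def comm (P R : Module.End K V) : Module.End K V := P * R - R * P

end

section algebra

variable {K : Type*} [Field K]

/-- `x_i = q^(d-2i)` -/
def xx (q : K) (d i : ℕ) : K := q ^ ((d : ℤ) - 2 * i)

/-- `m_i = (1 - q^(2i)) (1 - q^(2i-2d-2))` -/
def mm (q : K) (d i : ℕ) : K := (1 - q ^ (2 * i)) * (1 - q ^ (2 * i) / q ^ (2 * d + 2))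

def PP (q : K) (d : ℕ) (a b c : K) (i : ℕ) : K := b - a / c * (q * xx q d i)

def QQ (q : K) (d : ℕ) (a b c : K) (i : ℕ) : K := a⁻¹ - c / b * (q * xx q d i)

variable {q a b c : K} (hq : q ≠ 0) (ha : a ≠ 0) (hb : b ≠ 0) (hc : c ≠ 0) (d : ℕ)

include hq

theorem xx_eq (i : ℕ) : xx q d i = q ^ d / (q ^ i) ^ 2 := by
  unfold xx
  rw [zpow_sub₀ hq, zpow_natCast]
  have : q ^ ((2 : ℤ) * i) = (q ^ i) ^ 2 := by
    rw [← pow_mul, mul_comm i 2]
    exact_mod_cast zpow_natCast q (2 * i)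
  rw [this]

theorem e2 (i : ℕ) : q ^ ((d : ℤ) - i + 1) = q ^ d * q / q ^ i := by
  rw [zpow_add₀ hq, zpow_sub₀ hq, zpow_natCast, zpow_natCast, zpow_one]
  ring

theorem e3 (i : ℕ) : q ^ ((i : ℤ) - d - 1) = q ^ i / (q ^ d * q) := by
  rw [zpow_sub₀ hq, zpow_sub₀ hq, zpow_natCast, zpow_natCast, zpow_one, div_div]

theorem e4 : q ^ ((d : ℤ) + 1) = q ^ d * q := by
  rw [zpow_add₀ hq, zpow_natCast, zpow_one]

theorem e5 : q ^ (-(d : ℤ) - 1) = (q ^ d * q)⁻¹ := by
  rw [← e4 hq, ← zpow_neg]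
  congr 1
  ring

theorem xx_ne (i : ℕ) : xx q d i ≠ 0 := zpow_ne_zero _ hq

theorem xx_succ (i : ℕ) : xx q d (i + 1) = xx q d i / q ^ 2 := by
  rw [xx_eq hq, xx_eq hq, pow_succ]
  field_simp
  ring

theorem lam_eq (x : K) (i : ℕ) : lam q d x i = x * (xx q d i)⁻¹ + x⁻¹ * xx q d i := by
  unfold lam xx
  rw [← zpow_neg]
  congr 3
  ring

theorem lam_rev (x : K) (i : ℕ) (hi : i ≤ d) :
    lam q d x (d - i) = x * xx q d i + x⁻¹ * (xx q d i)⁻¹ := by
  unfold lam xx
  rw [← zpow_neg]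
  have e1 : (2 : ℤ) * ((d - i : ℕ) : ℤ) - d = (d : ℤ) - 2 * i := by
    push_cast [hi]
    ring
  have e2 : (d : ℤ) - 2 * ((d - i : ℕ) : ℤ) = -((d : ℤ) - 2 * i) := by
    push_cast [hi]
    ring
  rw [e1, e2]

include ha hb hc in
theorem psi_eq (i : ℕ) : psi q d a b c i = mm q d i * PP q d a b c i * QQ q d a b c i := by
  unfold psi uu rr mm PP QQ
  rw [xx_eq hq, e2 hq, e3 hq, e4 hq, zpow_neg, zpow_natCast, pow_mul', pow_add, pow_mul']
  have h1 : q ^ i ≠ 0 := pow_ne_zero _ hq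
  have h2 : q ^ d ≠ 0 := pow_ne_zero _ hq
  field_simp
  ring

theorem mm_zero : mm q d 0 = 0 := by
  unfold mm
  simp

theorem mm_last : mm q d (d + 1) = 0 := by
  unfold mm
  have h1 : q ^ (2 * d + 2) ≠ 0 := pow_ne_zero _ hq
  have h2 : 2 * (d + 1) = 2 * d + 2 := by ring
  rw [h2, div_self h1, sub_self, mul_zero]

theorem mm_succ (i : ℕ) :
    mm q d (i + 1) = q ^ 2 * mm q d i + (q ^ 2 - 1) * ((xx q d i)⁻¹ ^ 2 - 1) := by
  unfold mm
  rw [xx_eq hq, mul_add, mul_one, pow_add, pow_mul', pow_add, pow_mul']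
  have h1 : q ^ i ≠ 0 := pow_ne_zero _ hq
  have h2 : q ^ d ≠ 0 := pow_ne_zero _ hq
  field_simp
  ring

theorem kap_ne (hq2 : q ^ 2 ≠ 1) : q - q⁻¹ ≠ 0 := by
  intro h0
  apply hq2
  have : q * (q - q⁻¹) = 0 := by rw [h0, mul_zero]
  rw [mul_sub, mul_inv_cancel₀ hq] at this
  linear_combination this

theorem diff_eq (hq2 : q ^ 2 ≠ 1) (i : ℕ) :
    (q - q⁻¹)⁻¹ * (xx q d (i + 1) - xx q d i) = -(q * xx q d (i + 1)) := by
  have h0 := kap_ne hq hq2
  rw [inv_mul_eq_iff_eq_mul₀ h0, xx_succ hq]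
  field_simp
  ring

theorem diff_inv_eq (hq2 : q ^ 2 ≠ 1) (i : ℕ) :
    (q - q⁻¹)⁻¹ * ((xx q d i)⁻¹ - (xx q d (i + 1))⁻¹) = -(q * (xx q d i)⁻¹) := by
  have h0 := kap_ne hq hq2
  have h1 := xx_ne hq d i
  rw [inv_mul_eq_iff_eq_mul₀ h0, xx_succ hq]
  field_simp
  ring

include ha hb hc in
theorem low_eq (j : ℕ) (hQ : QQ q d a b c (j + 1) ≠ 0) :
    q⁻¹ * lam q d b j - q * lam q d b (j + 1) =
      (q ^ 2 - (q ^ 2)⁻¹) * ((c - b / a * (q * (xx q d j)⁻¹)) * (QQ q d a b c (j + 1))⁻¹) := by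
  have h1 := xx_ne hq d j
  rw [← mul_assoc, eq_mul_inv_iff_mul_eq₀ hQ, lam_eq hq, lam_eq hq]
  unfold QQ
  rw [xx_succ hq]
  field_simp
  ring

include ha hb hc in
theorem up_eq (hq2 : q ^ 2 ≠ 1) (j : ℕ) :
    q⁻¹ * (mm q d (j + 1) * PP q d a b c (j + 1) * QQ q d a b c (j + 1)) *
        (a * xx q d j + a⁻¹ * (xx q d j)⁻¹) -
      q * (a * xx q d (j + 1) + a⁻¹ * (xx q d (j + 1))⁻¹) *
        (mm q d (j + 1) * PP q d a b c (j + 1) * QQ q d a b c (j + 1)) =
      (q ^ 2 - (q ^ 2)⁻¹) * ((c⁻¹ - b / a * (q * (xx q d j)⁻¹)) *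
        (mm q d (j + 1) * QQ q d a b c (j + 1))) := by
  have h1 := xx_ne hq d j
  have key : q⁻¹ * PP q d a b c (j + 1) * (a * xx q d j + a⁻¹ * (xx q d j)⁻¹) -
      q * (a * xx q d (j + 1) + a⁻¹ * (xx q d (j + 1))⁻¹) * PP q d a b c (j + 1) =
      (q ^ 2 - (q ^ 2)⁻¹) * (c⁻¹ - b / a * (q * (xx q d j)⁻¹)) := by
    unfold PP
    rw [xx_succ hq]
    field_simp
    ring
  linear_combination (mm q d (j + 1) * QQ q d a b c (j + 1)) * key

theorem diff_mm (hq2 : q ^ 2 ≠ 1) (j : ℕ) :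
    (q - q⁻¹)⁻¹ * (mm q d j - mm q d (j + 1)) = -(q * (mm q d j + (xx q d j)⁻¹ ^ 2 - 1)) := by
  have h0 := kap_ne hq hq2
  rw [inv_mul_eq_iff_eq_mul₀ h0, mm_succ hq]
  field_simp
  ring

include ha hb hc in
theorem diag_eq (j : ℕ) :
    q⁻¹ * (lam q d b j * (a * xx q d j + a⁻¹ * (xx q d j)⁻¹) +
        mm q d j * PP q d a b c j * QQ q d a b c j) -
      q * ((a * xx q d j + a⁻¹ * (xx q d j)⁻¹) * lam q d b j +
        mm q d (j + 1) * PP q d a b c (j + 1) * QQ q d a b c (j + 1)) +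
      (q - q⁻¹) * (ss a * ss b + ss c * tt q d) =
      (q ^ 2 - (q ^ 2)⁻¹) * ((c + c⁻¹) * (xx q d j)⁻¹ -
        b / a * (q * (mm q d j + (xx q d j)⁻¹ ^ 2 - 1))) := by
  unfold PP QQ ss tt
  rw [lam_eq hq, mm_succ hq, xx_succ hq, e4 hq, e5 hq]
  unfold mm
  rw [xx_eq hq, pow_mul', pow_add, pow_mul']
  have h1 : q ^ j ≠ 0 := pow_ne_zero _ hq
  have h2 : q ^ d ≠ 0 := pow_ne_zero _ hq
  generalize q ^ j = w at *
  generalize q ^ d = D at *
  field_simp
  ring

end algebra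



section maps

variable {K : Type*} [Field K] {V : Type*} [AddCommGroup V] [Module K V] {d : ℕ}

theorem ext_ext0 (v : Basis (Fin (d + 1)) K V) (f g : Module.End K V)
    (h : ∀ i, i ≤ d → f (ext0 v i) = g (ext0 v i)) : f = g := by
  refine v.ext fun i => ?_
  have := h i (by omega)
  rwa [ext0_fin] at this

noncomputable def mapX (q : K) (v : Basis (Fin (d + 1)) K V) : Module.End K V :=
  v.constr K fun i => xx q d i • ext0 v i

noncomputable def mapXi (q : K) (v : Basis (Fin (d + 1)) K V) : Module.End K V :=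
  v.constr K fun i => (xx q d i)⁻¹ • ext0 v i

noncomputable def mapY (q a b c : K) (v : Basis (Fin (d + 1)) K V) : Module.End K V :=
  v.constr K fun i => (xx q d i)⁻¹ • ext0 v i + (QQ q d a b c (i + 1))⁻¹ • ext0 v (i + 1)

noncomputable def mapZ (q a b c : K) (v : Basis (Fin (d + 1)) K V) : Module.End K V :=
  v.constr K fun i => (xx q d i)⁻¹ • ext0 v i + (mm q d i * QQ q d a b c i) • ext0 v (i - 1)

variable {q a b c : K} (v : Basis (Fin (d + 1)) K V)

theorem mapX_apply (i : ℕ) : mapX q v (ext0 v i) = xx q d i • ext0 v i := by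
  by_cases hi : i < d + 1
  · have h1 : ext0 v i = v ⟨i, hi⟩ := ext0_lt v i hi
    conv_lhs => rw [h1]
    unfold mapX
    rw [Basis.constr_basis]
  · rw [ext0_ge v i (by omega), map_zero, smul_zero]

theorem mapXi_apply (i : ℕ) : mapXi q v (ext0 v i) = (xx q d i)⁻¹ • ext0 v i := by
  by_cases hi : i < d + 1
  · have h1 : ext0 v i = v ⟨i, hi⟩ := ext0_lt v i hi
    conv_lhs => rw [h1]
    unfold mapXi
    rw [Basis.constr_basis]
  · rw [ext0_ge v i (by omega), map_zero, smul_zero]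

theorem mapY_apply (i : ℕ) : mapY q a b c v (ext0 v i) =
    (xx q d i)⁻¹ • ext0 v i + (QQ q d a b c (i + 1))⁻¹ • ext0 v (i + 1) := by
  by_cases hi : i < d + 1
  · have h1 : ext0 v i = v ⟨i, hi⟩ := ext0_lt v i hi
    conv_lhs => rw [h1]
    unfold mapY
    rw [Basis.constr_basis]
  · rw [ext0_ge v i (by omega), ext0_ge v (i + 1) (by omega), map_zero, smul_zero, smul_zero,
      add_zero]

theorem mapZ_zero (hq : q ≠ 0) : mapZ q a b c v (ext0 v 0) = (xx q d 0)⁻¹ • ext0 v 0 := by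
  have h1 : ext0 v 0 = v ⟨0, by omega⟩ := ext0_lt v 0 (by omega)
  conv_lhs => rw [h1]
  unfold mapZ
  rw [Basis.constr_basis, mm_zero hq, zero_mul, zero_smul, add_zero]

theorem mapZ_succ (hq : q ≠ 0) (i : ℕ) : mapZ q a b c v (ext0 v (i + 1)) =
    (xx q d (i + 1))⁻¹ • ext0 v (i + 1) +
      (mm q d (i + 1) * QQ q d a b c (i + 1)) • ext0 v i := by
  by_cases hi : i + 1 < d + 1
  · have h1 : ext0 v (i + 1) = v ⟨i + 1, hi⟩ := ext0_lt v (i + 1) hi
    conv_lhs => rw [h1]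
    unfold mapZ
    rw [Basis.constr_basis]
    rfl
  · rw [ext0_ge v (i + 1) (by omega), map_zero, smul_zero, zero_add]
    by_cases hi2 : i = d
    · rw [hi2, mm_last hq, zero_mul, zero_smul]
    · rw [ext0_ge v i (by omega), smul_zero]

theorem mQ_cancel (hq : q ≠ 0) (hQ : ∀ i, 1 ≤ i → i ≤ d → QQ q d a b c i ≠ 0) (i : ℕ)
    (hi : i ≤ d) :
    (QQ q d a b c (i + 1))⁻¹ * (mm q d (i + 1) * QQ q d a b c (i + 1)) = mm q d (i + 1) := by
  rcases Nat.lt_or_ge i d with h1 | h1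
  · have := hQ (i + 1) (by omega) (by omega)
    field_simp
  · have h2 : i = d := le_antisymm hi h1
    rw [h2, mm_last hq, zero_mul, mul_zero]

theorem equitable (hq : q ≠ 0)
    (hQ : ∀ i, 1 ≤ i → i ≤ d → QQ q d a b c i ≠ 0) :
    EquitableRel q (mapX q v) (mapXi q v) (mapY q a b c v) (mapZ q a b c v) where
  inv := by
    refine ext_ext0 v _ _ fun i _ => ?_
    rw [Module.End.mul_apply, mapXi_apply, map_smul, mapX_apply, smul_smul,
      inv_mul_cancel₀ (xx_ne hq d i), one_smul, Module.End.one_apply]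
  inv' := by
    refine ext_ext0 v _ _ fun i _ => ?_
    rw [Module.End.mul_apply, mapX_apply, map_smul, mapXi_apply, smul_smul,
      mul_inv_cancel₀ (xx_ne hq d i), one_smul, Module.End.one_apply]
  xy := by
    refine ext_ext0 v _ _ fun i _ => ?_
    have hx := xx_ne hq d i
    simp only [LinearMap.sub_apply, LinearMap.smul_apply, Module.End.mul_apply,
      Module.End.one_apply, mapX_apply, mapY_apply, map_add, map_smul]
    have h1 : q * (xx q d i)⁻¹ * xx q d i - q⁻¹ * xx q d i * (xx q d i)⁻¹ = q - q⁻¹ := by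
      field_simp
    have h2 : q * (QQ q d a b c (i + 1))⁻¹ * xx q d (i + 1) -
        q⁻¹ * xx q d i * (QQ q d a b c (i + 1))⁻¹ = 0 := by
      rw [xx_succ hq]
      field_simp
      ring
    calc _ = (q * (xx q d i)⁻¹ * xx q d i - q⁻¹ * xx q d i * (xx q d i)⁻¹) • ext0 v i +
          (q * (QQ q d a b c (i + 1))⁻¹ * xx q d (i + 1) -
            q⁻¹ * xx q d i * (QQ q d a b c (i + 1))⁻¹) • ext0 v (i + 1) := by module
      _ = _ := by rw [h1, h2, zero_smul, add_zero]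
  yz := by
    refine ext_ext0 v _ _ fun i hi => ?_
    cases i with
    | zero =>
      have hx := xx_ne hq d 0
      simp only [LinearMap.sub_apply, LinearMap.smul_apply, Module.End.mul_apply,
        Module.End.one_apply, mapY_apply, mapZ_zero v hq, mapZ_succ v hq, map_add, map_smul,
        zero_add]
      have hm := mQ_cancel hq hQ 0 hi
      rw [zero_add] at hm
      have h1 : q * ((xx q d 0)⁻¹ * (xx q d 0)⁻¹) -
          q⁻¹ * ((xx q d 0)⁻¹ * (xx q d 0)⁻¹ +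
            (QQ q d a b c 1)⁻¹ * (mm q d 1 * QQ q d a b c 1)) = q - q⁻¹ := by
        rw [hm, mm_succ hq, mm_zero hq]
        field_simp
        ring
      have h2 : q * ((xx q d 0)⁻¹ * (QQ q d a b c 1)⁻¹) -
          q⁻¹ * ((QQ q d a b c 1)⁻¹ * (xx q d 1)⁻¹) = 0 := by
        have : xx q d 1 = xx q d 0 / q ^ 2 := xx_succ hq d 0
        rw [this]
        field_simp
        ring
      calc _ = (q * ((xx q d 0)⁻¹ * (xx q d 0)⁻¹) -
          q⁻¹ * ((xx q d 0)⁻¹ * (xx q d 0)⁻¹ +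
            (QQ q d a b c 1)⁻¹ * (mm q d 1 * QQ q d a b c 1))) • ext0 v 0 +
          (q * ((xx q d 0)⁻¹ * (QQ q d a b c 1)⁻¹) -
          q⁻¹ * ((QQ q d a b c 1)⁻¹ * (xx q d 1)⁻¹)) • ext0 v 1 := by module
        _ = _ := by rw [h1, h2, zero_smul, add_zero]
    | succ i =>
      have hx := xx_ne hq d i
      have hx' := xx_ne hq d (i + 1)
      simp only [LinearMap.sub_apply, LinearMap.smul_apply, Module.End.mul_apply,
        Module.End.one_apply, mapY_apply, mapZ_succ v hq, map_add, map_smul]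
      have hm := mQ_cancel hq hQ (i + 1) hi
      have hm' := mQ_cancel hq hQ i (by omega)
      have h1 : q * ((xx q d (i + 1))⁻¹ * (xx q d (i + 1))⁻¹ +
            (QQ q d a b c (i + 1))⁻¹ * (mm q d (i + 1) * QQ q d a b c (i + 1))) -
          q⁻¹ * ((xx q d (i + 1))⁻¹ * (xx q d (i + 1))⁻¹ +
            (QQ q d a b c (i + 1 + 1))⁻¹ * (mm q d (i + 1 + 1) * QQ q d a b c (i + 1 + 1))) =
          q - q⁻¹ := by
        rw [hm, hm', mm_succ hq d (i + 1)]
        field_simp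
        ring
      have h2 : q * ((xx q d (i + 1))⁻¹ * (QQ q d a b c (i + 1 + 1))⁻¹) -
          q⁻¹ * ((QQ q d a b c (i + 1 + 1))⁻¹ * (xx q d (i + 1 + 1))⁻¹) = 0 := by
        have : xx q d (i + 1 + 1) = xx q d (i + 1) / q ^ 2 := xx_succ hq d (i + 1)
        rw [this]
        field_simp
        ring
      have h3 : q * ((mm q d (i + 1) * QQ q d a b c (i + 1)) * (xx q d i)⁻¹) -
          q⁻¹ * ((mm q d (i + 1) * QQ q d a b c (i + 1)) * (xx q d (i + 1))⁻¹) = 0 := by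
        have : xx q d (i + 1) = xx q d i / q ^ 2 := xx_succ hq d i
        rw [this]
        field_simp
        ring
      calc _ = (q * ((xx q d (i + 1))⁻¹ * (xx q d (i + 1))⁻¹ +
            (QQ q d a b c (i + 1))⁻¹ * (mm q d (i + 1) * QQ q d a b c (i + 1))) -
          q⁻¹ * ((xx q d (i + 1))⁻¹ * (xx q d (i + 1))⁻¹ +
            (QQ q d a b c (i + 1 + 1))⁻¹ * (mm q d (i + 1 + 1) * QQ q d a b c (i + 1 + 1)))) •
              ext0 v (i + 1) +
          (q * ((xx q d (i + 1))⁻¹ * (QQ q d a b c (i + 1 + 1))⁻¹) -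
          q⁻¹ * ((QQ q d a b c (i + 1 + 1))⁻¹ * (xx q d (i + 1 + 1))⁻¹)) • ext0 v (i + 1 + 1) +
          (q * ((mm q d (i + 1) * QQ q d a b c (i + 1)) * (xx q d i)⁻¹) -
          q⁻¹ * ((mm q d (i + 1) * QQ q d a b c (i + 1)) * (xx q d (i + 1))⁻¹)) • ext0 v i := by
            module
        _ = _ := by rw [h1, h2, h3, zero_smul, zero_smul, add_zero, add_zero]
  zx := by
    refine ext_ext0 v _ _ fun i _ => ?_
    have hx := xx_ne hq d i
    cases i with
    | zero =>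
      simp only [LinearMap.sub_apply, LinearMap.smul_apply, Module.End.mul_apply,
        Module.End.one_apply, mapX_apply, mapZ_zero v hq, map_smul]
      have h1 : q * xx q d 0 * (xx q d 0)⁻¹ - q⁻¹ * (xx q d 0)⁻¹ * xx q d 0 = q - q⁻¹ := by
        field_simp
      calc _ = (q * xx q d 0 * (xx q d 0)⁻¹ - q⁻¹ * (xx q d 0)⁻¹ * xx q d 0) • ext0 v 0 := by
            module
        _ = _ := by rw [h1]
    | succ i =>
      simp only [LinearMap.sub_apply, LinearMap.smul_apply, Module.End.mul_apply,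
        Module.End.one_apply, mapX_apply, mapZ_succ v hq, map_add, map_smul]
      have h1 : q * xx q d (i + 1) * (xx q d (i + 1))⁻¹ -
          q⁻¹ * (xx q d (i + 1))⁻¹ * xx q d (i + 1) = q - q⁻¹ := by
        field_simp
      have h2 : q * xx q d (i + 1) * (mm q d (i + 1) * QQ q d a b c (i + 1)) -
          q⁻¹ * (mm q d (i + 1) * QQ q d a b c (i + 1)) * xx q d i = 0 := by
        rw [xx_succ hq]
        field_simp
        ring
      calc _ = (q * xx q d (i + 1) * (xx q d (i + 1))⁻¹ -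
            q⁻¹ * (xx q d (i + 1))⁻¹ * xx q d (i + 1)) • ext0 v (i + 1) +
          (q * xx q d (i + 1) * (mm q d (i + 1) * QQ q d a b c (i + 1)) -
            q⁻¹ * (mm q d (i + 1) * QQ q d a b c (i + 1)) * xx q d i) • ext0 v i := by module
        _ = _ := by rw [h1, h2, zero_smul, add_zero]

/-- formula for `A` -/
theorem formA (hq : q ≠ 0) (hq2 : q ^ 2 ≠ 1) (ha : a ≠ 0) (hb : b ≠ 0)
    (hQ : ∀ i, 1 ≤ i → i ≤ d → QQ q d a b c i ≠ 0) (A : Module.End K V)
    (hA : ∀ i, i ≤ d → A (ext0 v i) =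
      (a * xx q d i + a⁻¹ * (xx q d i)⁻¹) • ext0 v i + ext0 v (i + 1)) :
    A = a • mapX q v + a⁻¹ • mapY q a b c v +
      (c / b) • ((q - q⁻¹)⁻¹ • comm (mapX q v) (mapY q a b c v)) := by
  refine ext_ext0 v _ _ fun i hi => ?_
  rw [hA i hi]
  simp only [comm, LinearMap.add_apply, LinearMap.sub_apply, LinearMap.smul_apply,
    Module.End.mul_apply, mapX_apply, mapY_apply, map_add, map_smul]
  have h1 : (q - q⁻¹)⁻¹ * (xx q d (i + 1) - xx q d i) = -(q * xx q d (i + 1)) :=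
    diff_eq hq d hq2 i
  have h3 : a⁻¹ * (QQ q d a b c (i + 1))⁻¹ +
      (c / b) * (((q - q⁻¹)⁻¹ * (xx q d (i + 1) - xx q d i)) * (QQ q d a b c (i + 1))⁻¹) =
      QQ q d a b c (i + 1) * (QQ q d a b c (i + 1))⁻¹ := by
    rw [h1]
    unfold QQ
    ring
  have h4 : (QQ q d a b c (i + 1) * (QQ q d a b c (i + 1))⁻¹) • ext0 v (i + 1) =
      ext0 v (i + 1) := by
    rcases Nat.lt_or_ge i d with h5 | h5
    · rw [mul_inv_cancel₀ (hQ (i + 1) (by omega) (by omega)), one_smul]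
    · rw [ext0_ge v (i + 1) (by omega), smul_zero]
  rw [← h3] at h4
  conv_lhs => rw [← h4]
  module

/-- formula for `A^*` -/
theorem formAs (hq : q ≠ 0) (hq2 : q ^ 2 ≠ 1) (B : Module.End K V)
    (hB0 : B (ext0 v 0) = lam q d b 0 • ext0 v 0)
    (hB : ∀ i, B (ext0 v (i + 1)) = lam q d b (i + 1) • ext0 v (i + 1) +
      (mm q d (i + 1) * PP q d a b c (i + 1) * QQ q d a b c (i + 1)) • ext0 v i) :
    B = b • mapZ q a b c v + b⁻¹ • mapX q v +
      (a / c) • ((q - q⁻¹)⁻¹ • comm (mapZ q a b c v) (mapX q v)) := by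
  refine ext_ext0 v _ _ fun i hi => ?_
  cases i with
  | zero =>
    rw [hB0, lam_eq hq]
    simp only [comm, LinearMap.add_apply, LinearMap.sub_apply, LinearMap.smul_apply,
      Module.End.mul_apply, mapX_apply, mapZ_zero v hq, map_add, map_smul]
    module
  | succ i =>
    rw [hB i, lam_eq hq]
    simp only [comm, LinearMap.add_apply, LinearMap.sub_apply, LinearMap.smul_apply,
      Module.End.mul_apply, mapX_apply, mapZ_succ v hq, map_add, map_smul]
    have h1 : (q - q⁻¹)⁻¹ * (xx q d (i + 1) - xx q d i) = -(q * xx q d (i + 1)) :=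
      diff_eq hq d hq2 i
    have h3 : mm q d (i + 1) * PP q d a b c (i + 1) * QQ q d a b c (i + 1) =
        b * (mm q d (i + 1) * QQ q d a b c (i + 1)) +
        (a / c) * (((q - q⁻¹)⁻¹ * (xx q d (i + 1) - xx q d i)) *
          (mm q d (i + 1) * QQ q d a b c (i + 1))) := by
      rw [h1]
      unfold PP
      ring
    rw [h3]
    module

theorem low_smul (hq : q ≠ 0) (hq2 : q ^ 2 ≠ 1) (ha : a ≠ 0) (hb : b ≠ 0) (hc : c ≠ 0)
    (hQ : ∀ i, 1 ≤ i → i ≤ d → QQ q d a b c i ≠ 0) (j : ℕ) :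
    (q⁻¹ * lam q d b j - q * lam q d b (j + 1)) • ext0 v (j + 1) =
      ((q ^ 2 - (q ^ 2)⁻¹) * (c * (QQ q d a b c (j + 1))⁻¹ +
        b / a * ((q - q⁻¹)⁻¹ * ((xx q d j)⁻¹ - (xx q d (j + 1))⁻¹)) *
          (QQ q d a b c (j + 1))⁻¹)) • ext0 v (j + 1) := by
  rcases Nat.lt_or_ge j d with h5 | h5
  · rw [low_eq hq ha hb hc d j (hQ (j + 1) (by omega) (by omega)), diff_inv_eq hq d hq2]
    congr 1
    ring
  · rw [ext0_ge v (j + 1) (by omega), smul_zero, smul_zero]

/-- formula for `A^ε` -/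
theorem formAe (hq : q ≠ 0) (hq4 : q ^ 4 ≠ 1) (ha : a ≠ 0) (hb : b ≠ 0) (hc : c ≠ 0)
    (hQ : ∀ i, 1 ≤ i → i ≤ d → QQ q d a b c i ≠ 0) (A B C : Module.End K V)
    (hA : ∀ i, i ≤ d → A (ext0 v i) =
      (a * xx q d i + a⁻¹ * (xx q d i)⁻¹) • ext0 v i + ext0 v (i + 1))
    (hB0 : B (ext0 v 0) = lam q d b 0 • ext0 v 0)
    (hB : ∀ i, B (ext0 v (i + 1)) = lam q d b (i + 1) • ext0 v (i + 1) +
      (mm q d (i + 1) * PP q d a b c (i + 1) * QQ q d a b c (i + 1)) • ext0 v i)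
    (hC : (q ^ 2 - (q ^ 2)⁻¹) • C = q⁻¹ • (A * B) - q • (B * A) +
      ((q - q⁻¹) * (ss a * ss b + ss c * tt q d)) • (1 : Module.End K V)) :
    C = c • mapY q a b c v + c⁻¹ • mapZ q a b c v +
      (b / a) • ((q - q⁻¹)⁻¹ • comm (mapY q a b c v) (mapZ q a b c v)) := by
  have hq2 : q ^ 2 ≠ 1 := by
    intro h
    apply hq4
    have : q ^ 4 = (q ^ 2) ^ 2 := by ring
    rw [this, h, one_pow]
  have hk : q ^ 2 - (q ^ 2)⁻¹ ≠ 0 := by
    intro h0
    apply hq4
    have h1 : q ^ 2 * (q ^ 2 - (q ^ 2)⁻¹) = 0 := by rw [h0, mul_zero]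
    rw [mul_sub, mul_inv_cancel₀ (pow_ne_zero 2 hq)] at h1
    linear_combination h1
  have hA' : ∀ i, A (ext0 v i) =
      (a * xx q d i + a⁻¹ * (xx q d i)⁻¹) • ext0 v i + ext0 v (i + 1) := by
    intro i
    rcases Nat.lt_or_ge d i with h | h
    · rw [ext0_ge v i h, ext0_ge v (i + 1) (by omega), map_zero, smul_zero, add_zero]
    · exact hA i h
  have key : (q ^ 2 - (q ^ 2)⁻¹) • C = (q ^ 2 - (q ^ 2)⁻¹) • (c • mapY q a b c v +
      c⁻¹ • mapZ q a b c v +
      (b / a) • ((q - q⁻¹)⁻¹ • comm (mapY q a b c v) (mapZ q a b c v))) := by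
    rw [hC]
    refine ext_ext0 v _ _ fun i hi => ?_
    cases i with
    | zero =>
      have hD := diag_eq hq ha hb hc d 0
      have hL := low_smul v hq hq2 ha hb hc hQ 0
      have hm := mQ_cancel hq hQ 0 hi
      have hd := diff_mm hq d hq2 0
      rw [mm_zero hq] at hD hd
      simp only [zero_add, zero_mul, add_zero, zero_sub] at hD hL hm hd
      simp only [comm, LinearMap.add_apply, LinearMap.sub_apply, LinearMap.smul_apply,
        Module.End.mul_apply, Module.End.one_apply, mapY_apply, mapZ_zero v hq, mapZ_succ v hq,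
        map_add, map_smul, hA', hB0, hB, zero_add]
      have hd' : b / a * ((q - q⁻¹)⁻¹ * -((QQ q d a b c 1)⁻¹ * (mm q d 1 * QQ q d a b c 1))) =
          -(b / a * (q * ((xx q d 0)⁻¹ ^ 2 - 1))) := by
        rw [hm, hd]
        ring
      have e1 : q⁻¹ * (lam q d b 0 * (a * xx q d 0 + a⁻¹ * (xx q d 0)⁻¹)) -
          q * ((a * xx q d 0 + a⁻¹ * (xx q d 0)⁻¹) * lam q d b 0 +
            mm q d 1 * PP q d a b c 1 * QQ q d a b c 1) +
          (q - q⁻¹) * (ss a * ss b + ss c * tt q d) =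
          (q ^ 2 - (q ^ 2)⁻¹) * (c * (xx q d 0)⁻¹ + c⁻¹ * (xx q d 0)⁻¹ +
            b / a * ((q - q⁻¹)⁻¹ * -((QQ q d a b c 1)⁻¹ * (mm q d 1 * QQ q d a b c 1)))) := by
        rw [hD, hd']
        ring
      calc _ = (q⁻¹ * (lam q d b 0 * (a * xx q d 0 + a⁻¹ * (xx q d 0)⁻¹)) -
          q * ((a * xx q d 0 + a⁻¹ * (xx q d 0)⁻¹) * lam q d b 0 +
            mm q d 1 * PP q d a b c 1 * QQ q d a b c 1) +
          (q - q⁻¹) * (ss a * ss b + ss c * tt q d)) • ext0 v 0 +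
          (q⁻¹ * lam q d b 0 - q * lam q d b 1) • ext0 v 1 := by module
        _ = _ := by
          rw [e1, hL]
          module
    | succ i =>
      have hD := diag_eq hq ha hb hc d (i + 1)
      have hL := low_smul v hq hq2 ha hb hc hQ (i + 1)
      have hU := up_eq hq ha hb hc d hq2 i
      have hm := mQ_cancel hq hQ (i + 1) hi
      have hm' := mQ_cancel hq hQ i (by omega)
      have hd := diff_mm hq d hq2 (i + 1)
      have hdi := diff_inv_eq hq d hq2 i
      simp only [comm, LinearMap.add_apply, LinearMap.sub_apply, LinearMap.smul_apply,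
        Module.End.mul_apply, Module.End.one_apply, mapY_apply, mapZ_succ v hq,
        map_add, map_smul, hA', hB]
      have hd' : b / a * ((q - q⁻¹)⁻¹ *
          ((QQ q d a b c (i + 1))⁻¹ * (mm q d (i + 1) * QQ q d a b c (i + 1)) -
            (QQ q d a b c (i + 1 + 1))⁻¹ * (mm q d (i + 1 + 1) * QQ q d a b c (i + 1 + 1)))) =
          -(b / a * (q * (mm q d (i + 1) + (xx q d (i + 1))⁻¹ ^ 2 - 1))) := by
        rw [hm, hm', hd]
        ring
      have e1 : q⁻¹ * (lam q d b (i + 1) * (a * xx q d (i + 1) + a⁻¹ * (xx q d (i + 1))⁻¹) +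
            mm q d (i + 1) * PP q d a b c (i + 1) * QQ q d a b c (i + 1)) -
          q * ((a * xx q d (i + 1) + a⁻¹ * (xx q d (i + 1))⁻¹) * lam q d b (i + 1) +
            mm q d (i + 1 + 1) * PP q d a b c (i + 1 + 1) * QQ q d a b c (i + 1 + 1)) +
          (q - q⁻¹) * (ss a * ss b + ss c * tt q d) =
          (q ^ 2 - (q ^ 2)⁻¹) * (c * (xx q d (i + 1))⁻¹ + c⁻¹ * (xx q d (i + 1))⁻¹ +
            b / a * ((q - q⁻¹)⁻¹ *
              ((QQ q d a b c (i + 1))⁻¹ * (mm q d (i + 1) * QQ q d a b c (i + 1)) -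
              (QQ q d a b c (i + 1 + 1))⁻¹ *
                (mm q d (i + 1 + 1) * QQ q d a b c (i + 1 + 1))))) := by
        rw [hD, hd']
        ring
      have e2 : q⁻¹ * (mm q d (i + 1) * PP q d a b c (i + 1) * QQ q d a b c (i + 1)) *
            (a * xx q d i + a⁻¹ * (xx q d i)⁻¹) -
          q * (a * xx q d (i + 1) + a⁻¹ * (xx q d (i + 1))⁻¹) *
            (mm q d (i + 1) * PP q d a b c (i + 1) * QQ q d a b c (i + 1)) =
          (q ^ 2 - (q ^ 2)⁻¹) * (c⁻¹ * (mm q d (i + 1) * QQ q d a b c (i + 1)) +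
            b / a * ((q - q⁻¹)⁻¹ * ((xx q d i)⁻¹ - (xx q d (i + 1))⁻¹)) *
              (mm q d (i + 1) * QQ q d a b c (i + 1))) := by
        rw [hU, hdi]
        ring
      calc _ = (q⁻¹ * (lam q d b (i + 1) * (a * xx q d (i + 1) + a⁻¹ * (xx q d (i + 1))⁻¹) +
            mm q d (i + 1) * PP q d a b c (i + 1) * QQ q d a b c (i + 1)) -
          q * ((a * xx q d (i + 1) + a⁻¹ * (xx q d (i + 1))⁻¹) * lam q d b (i + 1) +
            mm q d (i + 1 + 1) * PP q d a b c (i + 1 + 1) * QQ q d a b c (i + 1 + 1)) +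
          (q - q⁻¹) * (ss a * ss b + ss c * tt q d)) • ext0 v (i + 1) +
          (q⁻¹ * lam q d b (i + 1) - q * lam q d b (i + 1 + 1)) • ext0 v (i + 1 + 1) +
          (q⁻¹ * (mm q d (i + 1) * PP q d a b c (i + 1) * QQ q d a b c (i + 1)) *
            (a * xx q d i + a⁻¹ * (xx q d i)⁻¹) -
          q * (a * xx q d (i + 1) + a⁻¹ * (xx q d (i + 1))⁻¹) *
            (mm q d (i + 1) * PP q d a b c (i + 1) * QQ q d a b c (i + 1))) • ext0 v i := by
            module
        _ = _ := by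
          rw [e1, hL, e2]
          module
  exact smul_right_injective _ hk key

/-- irreducibility -/
theorem irr (hq : q ≠ 0) (hx : ∀ i j, i ≤ d → j ≤ d → xx q d i = xx q d j → i = j)
    (hQ : ∀ i, 1 ≤ i → i ≤ d → QQ q d a b c i ≠ 0)
    (hm : ∀ i, 1 ≤ i → i ≤ d → mm q d i ≠ 0) :
    Irr (mapX q v) (mapXi q v) (mapY q a b c v) (mapZ q a b c v) := by
  intro W hW
  by_cases h0 : W = ⊥
  · exact Or.inl h0
  right
  obtain ⟨w, hw, hw0⟩ := Submodule.exists_mem_ne_zero_of_ne_bot h0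
  have hprim : PrimIdem d (mapX q v) (fun i : Fin (d + 1) => xx q d i) (projB v) :=
    { inj := fun i j hij => Fin.ext (hx i j (by omega) (by omega) hij)
      eig := fun i => by
        refine LinearMap.ext fun u => ?_
        have h1 := mapX_apply (q := q) v (i : ℕ)
        rw [ext0_fin] at h1
        rw [Module.End.mul_apply, projB_apply, map_smul, h1, LinearMap.smul_apply, projB_apply,
          smul_comm]
      ne := fun i h => by
        have := DFunLike.congr_fun h (v i)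
        rw [projB_apply, Basis.repr_self, Finsupp.single_eq_same, one_smul] at this
        exact v.ne_zero i this
      sum := by
        refine LinearMap.ext fun u => ?_
        rw [LinearMap.sum_apply]
        simp only [projB_apply]
        rw [v.sum_repr]
        rfl
      orth := fun i j => by
        refine LinearMap.ext fun u => ?_
        rw [Module.End.mul_apply, projB_apply, projB_apply, map_smul, Finsupp.smul_apply,
          Basis.repr_self]
        by_cases hij : i = j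
        · subst hij
          rw [Finsupp.single_eq_same, if_pos rfl, projB_apply, smul_eq_mul, mul_one]
        · rw [Finsupp.single_eq_of_ne hij, if_neg hij, smul_zero, zero_smul]
          rfl }
  have hcomp : ∀ u ∈ W, ∀ i, projB v i u ∈ W := by
    intro u hu i
    rw [hprim.E_eq_aeval i u]
    exact aeval_mem_of_invariant _ W (fun t ht => (hW t ht).1) _ u hu
  -- a basis vector in `W`
  obtain ⟨k, hk⟩ : ∃ k : Fin (d + 1), v.repr w k ≠ 0 := by
    by_contra hcon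
    push Not at hcon
    apply hw0
    have : v.repr w = 0 := Finsupp.ext hcon
    simpa using this
  have hvk : ext0 v (k : ℕ) ∈ W := by
    have h1 := hcomp w hw k
    rw [projB_apply] at h1
    have h2 := W.smul_mem (v.repr w k)⁻¹ h1
    rw [smul_smul, inv_mul_cancel₀ hk, one_smul] at h2
    rwa [ext0_fin]
  have hup : ∀ i, i < d → ext0 v i ∈ W → ext0 v (i + 1) ∈ W := by
    intro i hi h1
    have h2 := (hW _ h1).2.2.1
    rw [mapY_apply] at h2
    have h3 := W.sub_mem h2 (W.smul_mem (xx q d i)⁻¹ h1)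
    rw [add_sub_cancel_left] at h3
    have h4 := W.smul_mem (QQ q d a b c (i + 1)) h3
    rwa [smul_smul, mul_inv_cancel₀ (hQ (i + 1) (by omega) (by omega)), one_smul] at h4
  have hdown : ∀ i, i < d → ext0 v (i + 1) ∈ W → ext0 v i ∈ W := by
    intro i hi h1
    have h2 := (hW _ h1).2.2.2
    rw [mapZ_succ v hq] at h2
    have h3 := W.sub_mem h2 (W.smul_mem (xx q d (i + 1))⁻¹ h1)
    rw [add_sub_cancel_left] at h3
    have h4 := W.smul_mem (mm q d (i + 1) * QQ q d a b c (i + 1))⁻¹ h3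
    rwa [smul_smul, inv_mul_cancel₀ (mul_ne_zero (hm (i + 1) (by omega) (by omega))
      (hQ (i + 1) (by omega) (by omega))), one_smul] at h4
  have h0W : ext0 v 0 ∈ W := by
    have : ∀ n, n ≤ d → ext0 v n ∈ W → ext0 v 0 ∈ W := by
      intro n
      induction n with
      | zero => exact fun _ h => h
      | succ n ih => exact fun hn h => ih (by omega) (hdown n (by omega) h)
    exact this k (by omega) hvk
  have hall : ∀ n, n ≤ d → ext0 v n ∈ W := by
    intro n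
    induction n with
    | zero => exact fun _ => h0W
    | succ n ih => exact fun hn => hup n (by omega) (ih (by omega))
  rw [eq_top_iff, ← v.span_eq, Submodule.span_le]
  rintro _ ⟨i, rfl⟩
  have := hall i (by omega)
  rwa [ext0_fin] at this

end maps



theorem result {K V : Type*} [Field K] [AddCommGroup V] [Module K V] (d : ℕ)
    (q a b c : K) (hq : q ≠ 0) (ha : a ≠ 0) (hb : b ≠ 0) (hc : c ≠ 0) (hq4 : q ^ 4 ≠ 1)
    (A As Ae : Module.End K V) (hpair : LeonardPair A As)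
    (hpa : HasParameterArray d A As (lam q d a) (lam q d b) (phi q d a b c) (psi q d a b c))
    (hAe : (q ^ 2 - (q ^ 2)⁻¹) • Ae = q⁻¹ • (A * As) - q • (As * A) +
      ((q - q⁻¹) * (ss a * ss b + ss c * tt q d)) • (1 : Module.End K V)) :
    ∃ X Xi Y Z : Module.End K V, EquitableRel q X Xi Y Z ∧ Irr X Xi Y Z ∧
      A = a • X + a⁻¹ • Y + (c / b) • ((q - q⁻¹)⁻¹ • comm X Y) ∧
      As = b • Z + b⁻¹ • X + (a / c) • ((q - q⁻¹)⁻¹ • comm Z X) ∧
      Ae = c • Y + c⁻¹ • Z + (b / a) • ((q - q⁻¹)⁻¹ • comm Y Z) := by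
  obtain ⟨-, v, hvA, hvB⟩ := hpa
  have hq2 : q ^ 2 ≠ 1 := by
    intro h
    apply hq4
    have : q ^ 4 = (q ^ 2) ^ 2 := by ring
    rw [this, h, one_pow]
  have hdim : finrank K V = d + 1 := by rw [finrank_eq_card_basis v, Fintype.card_fin]
  obtain ⟨θ, θs, E, Es, h⟩ := hpair.exists_system hdim
  have hbd := bidiag_of_basis v A As _ _ _ hvA hvB
  have hψ : ∀ i, 1 ≤ i → i ≤ d → psi q d a b c i ≠ 0 := by
    intro i h1 h2
    have := h.r_ne hbd (i - 1) (by omega)
    have e : i - 1 + 1 = i := by omega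
    simpa [e] using this
  have hQ : ∀ i, 1 ≤ i → i ≤ d → QQ q d a b c i ≠ 0 := by
    intro i h1 h2 h3
    apply hψ i h1 h2
    rw [psi_eq hq ha hb hc, h3, mul_zero]
  have hm : ∀ i, 1 ≤ i → i ≤ d → mm q d i ≠ 0 := by
    intro i h1 h2 h3
    apply hψ i h1 h2
    rw [psi_eq hq ha hb hc, h3, zero_mul, zero_mul]
  have hqi : ∀ i, 1 ≤ i → i ≤ d → q ^ (2 * i) ≠ 1 := by
    intro i h1 h2 h3
    apply hm i h1 h2
    unfold mm
    rw [h3, sub_self, zero_mul]
  have hx : ∀ i j, i ≤ d → j ≤ d → xx q d i = xx q d j → i = j := by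
    have aux : ∀ i j, i < j → j ≤ d → xx q d i ≠ xx q d j := by
      intro i j hij hj h3
      rw [xx_eq hq, xx_eq hq] at h3
      have h4 : q ^ i ≠ 0 := pow_ne_zero _ hq
      have h5 : q ^ j ≠ 0 := pow_ne_zero _ hq
      have h6 : q ^ d ≠ 0 := pow_ne_zero _ hq
      have h7 : (q ^ j) ^ 2 = (q ^ i) ^ 2 := by
        field_simp at h3
        exact h3
      apply hqi (j - i) (by omega) (by omega)
      have h9 : (q ^ i) ^ 2 * q ^ (2 * (j - i)) = (q ^ j) ^ 2 := by
        rw [← pow_mul, ← pow_mul, ← pow_add]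
        congr 1
        omega
      have h8 : (q ^ i) ^ 2 * q ^ (2 * (j - i)) = (q ^ i) ^ 2 * 1 := by
        rw [mul_one, h9, h7]
      exact mul_left_cancel₀ (pow_ne_zero 2 h4) h8
    intro i j hi hj hij
    rcases lt_trichotomy i j with h1 | h1 | h1
    · exact absurd hij (aux i j h1 hj)
    · exact h1
    · exact absurd hij.symm (aux j i h1 hi)
  have hA : ∀ i, i ≤ d → A (ext0 v i) =
      (a * xx q d i + a⁻¹ * (xx q d i)⁻¹) • ext0 v i + ext0 v (i + 1) := by
    intro i hi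
    rw [lower_apply v A _ hvA i hi, lam_rev hq d a i hi]
  have hB0 : As (ext0 v 0) = lam q d b 0 • ext0 v 0 := upper_apply_zero v As _ _ hvB
  have hB : ∀ i, As (ext0 v (i + 1)) = lam q d b (i + 1) • ext0 v (i + 1) +
      (mm q d (i + 1) * PP q d a b c (i + 1) * QQ q d a b c (i + 1)) • ext0 v i := by
    intro i
    rw [← psi_eq hq ha hb hc]
    rcases Nat.lt_or_ge i d with h1 | h1
    · exact upper_apply_succ v As _ _ hvB i h1
    · rw [ext0_ge v (i + 1) (by omega), map_zero, smul_zero, zero_add]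
      rcases Nat.lt_or_ge d i with h2 | h2
      · rw [ext0_ge v i h2, smul_zero]
      · have h3 : i = d := le_antisymm h2 h1
        rw [h3, psi_eq hq ha hb hc, mm_last hq, zero_mul, zero_mul, zero_smul]
  exact ⟨_, _, _, _, equitable v hq hQ, irr v hq hx hQ hm, formA v hq hq2 ha hb hQ A hA,
    formAs v hq hq2 As hB0 hB, formAe v hq hq4 ha hb hc hQ A As Ae hA hB0 hB hAe⟩

end Pool.Agent.Results.MP_dc3d2a_al.EquitableAction
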